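import Mathlib
import Pool.Agent.H27.Strip
import Pool.Agent.H27.Tri

namespace Pool.Agent.Results.MP_04e97d_an.NoCalculus
open Complex Set Filter Topology MeasureTheory Pool.Agent.H27
open scoped Real ComplexOrder NNReal

/-- the open sector -/
def Sec (σ : ℝ) : Set ℂ := {z | z ≠ 0 ∧ |arg z| < σ}

/-- the class `H₀^∞` of the sector -/
def H0 (σ : ℝ) (f : ℂ → ℂ) : Prop := DifferentiableOn ℂ f (Sec σ) ∧
  ∃ C ε : ℝ, 0 < ε ∧ ∀ z ∈ Sec σ, ‖f z‖ ≤ C * ‖z‖ ^ ε * (1 + ‖z‖) ^ (-2 * ε)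

/-- the Cauchy integral over the boundary of the sector of angle `θ`, the two rays being
parametrised by `exp (x ∓ θ i)` -/
noncomputable def fc {X : Type} [NormedAddCommGroup X] [NormedSpace ℂ X] (θ : ℝ) (f : ℂ → ℂ)
    (A : X →L[ℂ] X) : X →L[ℂ] X :=
  (2 * π * I)⁻¹ • ∫ x : ℝ,
    ((f (exp (x - θ * I)) * exp (x - θ * I)) • resolvent A (exp (x - θ * I)) -
      (f (exp (x + θ * I)) * exp (x + θ * I)) • resolvent A (exp (x + θ * I)))

/-- the semigroup generated by `-A` -/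
noncomputable def T {X : Type} [NormedAddCommGroup X] [NormedSpace ℂ X] (A : X →L[ℂ] X) (t : ℝ) :
    X →L[ℂ] X := NormedSpace.exp ((-t : ℂ) • A)

section
variable {X : Type} [NormedAddCommGroup X] [InnerProductSpace ℂ X]

/-- `N` is an equivalent norm and a lattice norm for the coordinates in the basis `e` -/
def LatNorm (e : ℕ → X) (N : Seminorm ℂ X) : Prop := (∃ K, ∀ x, ‖x‖ ≤ N x ∧ N x ≤ K * ‖x‖) ∧
  ∀ x y, (∀ i, ‖inner ℂ (e i) x‖ ≤ ‖inner ℂ (e i) y‖) → N x ≤ N y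

/-- dense range and sectorial of angle zero -/
def Sectorial0 (A : X →L[ℂ] X) : Prop := DenseRange A ∧ ∀ ε > 0, ∃ C, ∀ z ≠ 0, ε ≤ |arg z| →
  z ∈ resolventSet ℂ A ∧ ‖z • resolvent A z‖ ≤ C

/-- the semigroup is contractive for `N` and positive -/
def PosContr (e : ℕ → X) (N : Seminorm ℂ X) (A : X →L[ℂ] X) : Prop := ∀ t ≥ 0, ∀ x,
  N (T A t x) ≤ N x ∧ ((∀ i, 0 ≤ inner ℂ (e i) x) → ∀ i, 0 ≤ inner ℂ (e i) (T A t x))

/-- bounded calculus on the sector of angle `σ`, computed on the contour of angle `θ` -/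
def BddCalc (σ θ : ℝ) (A : X →L[ℂ] X) : Prop :=
  ∃ C, ∀ f M, H0 σ f → (∀ z ∈ Sec σ, ‖f z‖ ≤ M) → ‖fc θ f A‖ ≤ C * M

/-- the imaginary power is a bounded operator -/
def BddPow (s θ : ℝ) (A : X →L[ℂ] X) : Prop := ∃ B, fc θ (fun z => z / (1 + z) ^ 2) A * B =
  fc θ (fun z => z / (1 + z) ^ 2 * z ^ (s * I)) A

end

noncomputable abbrev H := lp (fun _ : ℕ => ℂ) 2

noncomputable def c (i : ℕ) : ℝ := Real.exp (-i)

lemma c0 (i : ℕ) : 0 < c i := Real.exp_pos _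

lemma ca : Antitone c := fun _ _ h => Real.exp_le_exp.2 (by simpa)

section
variable {A : H →L[ℂ] H} (hA : Tri.Rep A fun i => c i)
include hA

lemma res (θ : ℝ) (h0 : 0 < θ) (z : ℂ) (z0 : z ≠ 0) (hz : θ ≤ |arg z|) :
    z ∈ resolventSet ℂ A ∧ Tri.Rep (z • resolvent A z) (fun i => z / (z - c i)) ∧
      ‖z • resolvent A z‖ ≤ 5 * (2 / (1 - Real.cos θ)) ^ 2 := by
  have h := hz.trans (abs_arg_le_pi z)
  have k0 := Strip.c1 θ h0 h
  have r := fun i => Strip.ray θ h0 h z hz (c i) (c0 i).le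
  have k1 : (1 - Real.cos θ) / 2 ≤ 1 := by linarith [Real.neg_one_le_cos θ]
  rw [← inv_div _ 2]
  have k2 : 0 < (1 - Real.cos θ) / 2 := by positivity
  generalize (1 - Real.cos θ) / 2 = κ at *
  have p := norm_pos_iff.2 z0
  have q : ∀ i, 0 < c i + ‖z‖ := fun i => add_pos (c0 i) p
  have n : ∀ i, z - c i ≠ 0 := fun i => norm_pos_iff.1 ((mul_pos k2 (q i)).trans_le (r i))
  obtain ⟨S, hS, nS⟩ := Tri.ex (fun i => ‖z‖ / (c i + ‖z‖))
    (fun i j hij => div_le_div_of_nonneg_left p.le (q j) (by linarith [ca hij]))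
    (fun i => (div_pos p (q i)).le) (fun i => div_le_one_of_le₀ (by linarith [c0 i]) (q i).le)
    (fun i => z / (z - c i)) (κ⁻¹ ^ 2) (fun i => by
      rw [norm_div, div_le_iff₀ (norm_pos_iff.2 (n i)), inv_pow, le_inv_mul_iff₀ (by positivity)]
      nlinarith [r i, mul_pos k2 (c0 i), mul_pos k2 p]) fun i j hij => by
      rw [div_sub_div _ _ (n i) (n j), div_sub_div _ _ (q i).ne' (q j).ne', norm_div, norm_mul,
        show z * (z - c j) - (z - c i) * z = -(z * (c j - c i : ℝ)) by push_cast; ring, norm_neg,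
        norm_mul, norm_real, Real.norm_of_nonneg (sub_nonneg.2 (ca hij.le))]
      refine (div_le_div_of_nonneg_left (mul_nonneg p.le (sub_nonneg.2 (ca hij.le)))
        (mul_pos (mul_pos k2 (q i)) (mul_pos k2 (q j))) (mul_le_mul (r i) (r j)
          (mul_pos k2 (q j)).le (norm_nonneg _))).trans_eq ?_
      have := q i
      have := q j
      field_simp; ring
  have a := (Tri.Rep.one.smul z).sub hA
  have b := hS.smul z⁻¹
  let U : (H →L[ℂ] H)ˣ := ⟨algebraMap ℂ _ z - A, z⁻¹ • S,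
    (a.mul b).ext (by convert! Tri.Rep.one; ext i; have := n i; simp; field_simp),
    (b.mul a).ext (by convert! Tri.Rep.one; ext i; have := n i; simp; field_simp)⟩
  have e : z • resolvent A z = S := by
    rw [show resolvent A z = z⁻¹ • S from Ring.inverse_unit U, smul_inv_smul₀ z0]
  exact ⟨U.isUnit, e ▸ hS, e ▸ nS⟩

lemma rfc (σ θ : ℝ) (h0 : 0 < θ) (h1 : θ < σ) (h2 : σ < π) (f : ℂ → ℂ) (hf : H0 σ f) :
    Tri.Rep (fc θ f A) fun i => f (c i) := by
  obtain ⟨hf, C, ε, hε, hC⟩ := hf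
  have k := fun i => Strip.cauchy f σ θ (c i) C ε h0 h1 h2 (c0 i) hε hf hC
  have g : ∀ y : ℝ, |y| = θ → (∀ x : ℝ, Tri.Rep ((f (exp (x + y * I)) * exp (x + y * I)) •
      resolvent A (exp (x + y * I))) fun i => f (exp (x + y * I)) * exp (x + y * I) /
        (exp (x + y * I) - c i)) ∧ Integrable fun x : ℝ => (f (exp (x + y * I)) *
          exp (x + y * I)) • resolvent A (exp (x + y * I)) := fun y hy => by
    have a : ∀ x : ℝ, |arg (exp (x + y * I))| = θ := fun x => by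
      rw [Strip.ae _ (by simp; linarith)]; simpa
    have r := fun x : ℝ => res hA θ h0 _ (exp_ne_zero _) (a x).ge
    have m : ∀ x : ℝ, exp (x + y * I) ∈ Sec σ := fun x => ⟨exp_ne_zero _, (a x).trans_lt h1⟩
    refine ⟨fun x => ?_, (integrable_inv_one_add_sq.const_mul (|C| * (1 + 2 / ε ^ 2) *
      (5 * (2 / (1 - Real.cos θ)) ^ 2))).mono' (Continuous.aestronglyMeasurable (.smul (.mul
        (hf.continuousOn.comp_continuous (by fun_prop) m) (by fun_prop))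
        (continuous_iff_continuousAt.2 fun x => ContinuousAt.comp (f := fun x : ℝ =>
          exp (x + y * I)) (spectrum.hasDerivAt_resolvent_const_left (r x).1).continuousAt
          (by fun_prop)))) (.of_forall fun x => ?_)⟩
    · rw [mul_smul]
      convert! (r x).2.1.smul (f (exp (x + y * I))) using 1
      ext i; simp [mul_div_assoc]
    · have b := hC _ (m x)
      rw [norm_exp, mul_assoc, show ((x : ℂ) + y * I).re = x by simp] at b
      have b := b.trans (mul_le_mul (le_abs_self C) (Strip.decay ε hε x) (by positivity)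
        (abs_nonneg _))
      rw [mul_smul, norm_smul]
      exact (mul_le_mul b (r x).2.2 (norm_nonneg _) (by positivity)).trans_eq (by ring)
  have g1 := g (-θ) (by rw [abs_neg, abs_of_pos h0])
  have g2 := g θ (abs_of_pos h0)
  simp only [ofReal_neg, neg_mul, ← sub_eq_add_neg] at g1
  convert! (Tri.Rep.integral (fun x => (g1.1 x).sub (g2.1 x)) (g1.2.sub g2.2)
    fun i => (k i).1).smul (2 * π * I)⁻¹ using 1
  ext i
  simp only [Pi.smul_apply, Pi.sub_apply, (k i).2, smul_eq_mul]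
  rw [inv_mul_cancel_left₀ two_pi_I_ne_zero]

lemma rT (t : ℝ) : Tri.Rep (T A t) fun i => (Real.exp (-t * c i) : ℝ) := by
  convert! (hA.smul (-t)).exp using 2; simp

end

lemma hq (σ s : ℝ) (h0 : 0 < σ) (h2 : σ < π) : ∃ M, ∀ p : ℝ, 1 ≤ p →
    H0 σ (fun z => p ^ 2 * z / ((p + z) * (1 + p * z)) * z ^ (s * I)) ∧
      ∀ z ∈ Sec σ, ‖p ^ 2 * z / ((p + z) * (1 + p * z)) * z ^ (s * I)‖ ≤ M := by
  have k0 := (Strip.cl σ h2).resolve_right h0.not_gt
  have k2 : 0 < (1 + Real.cos σ) / 2 := by linarith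
  refine ⟨((1 + Real.cos σ) / 2)⁻¹ ^ 2 * Real.exp (π * |s|), fun p hp => ?_⟩
  have p0 : 0 < p := by linarith
  have r : ∀ z ∈ Sec σ, Real.cos σ * ‖z‖ ≤ z.re := fun z hz => by
    rw [← norm_mul_cos_arg, ← Real.cos_abs (arg z), mul_comm]
    exact mul_le_mul_of_nonneg_left (Real.cos_le_cos_of_nonneg_of_le_pi (abs_nonneg _) h2.le
      hz.2.le) (norm_nonneg _)
  have a := fun z hz => Strip.sec _ p z k0.le (Real.cos_le_one σ) p0.le (r z hz)
  have b : ∀ z ∈ Sec σ, (1 + Real.cos σ) / 2 * (1 + p * ‖z‖) ≤ ‖1 + p * z‖ := fun z hz => by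
    simpa [abs_of_pos p0] using Strip.sec _ 1 (p * z) k0.le (Real.cos_le_one σ) zero_le_one (by
      simp [abs_of_pos p0]; nlinarith [r z hz])
  generalize (1 + Real.cos σ) / 2 = κ at *
  have e : ∀ z ∈ Sec σ, ‖p ^ 2 * z / ((p + z) * (1 + p * z)) * z ^ (s * I)‖ ≤
      κ⁻¹ ^ 2 * Real.exp (π * |s|) * (p ^ 2 * ‖z‖ / ((p + ‖z‖) * (1 + p * ‖z‖))) := fun z hz => by
    have : ‖z ^ (s * I)‖ ≤ Real.exp (π * |s|) := by
      rw [norm_cpow_of_ne_zero hz.1]
      simp only [mul_re, mul_im, ofReal_re, ofReal_im, I_re, I_im, mul_zero, mul_one, sub_zero,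
        add_zero, Real.rpow_zero, one_div, ← Real.exp_neg, Real.exp_le_exp]
      exact (neg_le_abs _).trans (abs_mul (arg z) s ▸ mul_le_mul_of_nonneg_right
        (abs_arg_le_pi z) (abs_nonneg _))
    rw [norm_mul, norm_div, norm_mul, norm_mul, norm_pow, norm_real, Real.norm_of_nonneg p0.le]
    refine (mul_le_mul (div_le_div_of_nonneg_left (by positivity) (by positivity) (mul_le_mul
      (a z hz) (b z hz) (by positivity) (norm_nonneg _))) this (norm_nonneg _)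
        (by positivity)).trans_eq (by field_simp)
  refine ⟨⟨fun z hz => DifferentiableAt.differentiableWithinAt (.mul (.div (by fun_prop)
    (by fun_prop) (mul_ne_zero (norm_pos_iff.1 (lt_of_lt_of_le (by positivity) (a z hz)))
      (norm_pos_iff.1 (lt_of_lt_of_le (by positivity) (b z hz))))) (differentiableAt_id.cpow_const
        (mem_slitPlane_iff_arg.2 ⟨((le_abs_self _).trans_lt (hz.2.trans h2)).ne, hz.1⟩))),
    κ⁻¹ ^ 2 * Real.exp (π * |s|) * p ^ 2, 1, one_pos, fun z hz => (e z hz).trans ?_⟩,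
    fun z hz => (e z hz).trans (mul_le_of_le_one_right (by positivity)
      (div_le_one_of_le₀ (by nlinarith [norm_nonneg z, mul_nonneg p0.le (sq_nonneg ‖z‖)])
        (by positivity)))⟩
  rw [mul_one, Real.rpow_one, Real.rpow_neg (by positivity), Real.rpow_two, mul_assoc, mul_assoc,
    mul_assoc, mul_assoc, mul_div_assoc, div_eq_mul_inv]
  gcongr
  nlinarith [norm_nonneg z, mul_nonneg (sub_nonneg.2 hp) (sq_nonneg ‖z‖),
    mul_nonneg (sub_nonneg.2 hp) (norm_nonneg z), mul_nonneg (mul_nonneg (sub_nonneg.2 hp) p0.le)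
      (norm_nonneg z)]

lemma cp (i : ℕ) : (c i : ℂ) ^ (π * I) = (-1) ^ i := by
  rw [cpow_def_of_ne_zero (ofReal_ne_zero.2 (c0 i).ne'), ← ofReal_log (c0 i).le, c, Real.log_exp,
    ← exp_neg_pi_mul_I, ← exp_nat_mul]
  congr 1; push_cast; ring

noncomputable def ab (x : H) : H := ⟨fun i => ‖x i‖, (lp.memℓp x).mono' fun i => by simp⟩

lemma main : ∃ (A : H →L[ℂ] H) (N : Seminorm ℂ H) (K : ℝ),
    (∀ x, ‖x‖ ≤ N x ∧ N x ≤ K * ‖x‖) ∧ (∀ x y : H, (∀ i, ‖x i‖ ≤ ‖y i‖) → N x ≤ N y) ∧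
    DenseRange A ∧ (∀ ε > 0, ∃ C, ∀ z ≠ 0, ε ≤ |arg z| →
      z ∈ resolventSet ℂ A ∧ ‖z • resolvent A z‖ ≤ C) ∧
    (∀ t ≥ 0, ∀ x, N (T A t x) ≤ N x ∧ ((∀ i, 0 ≤ x i) → ∀ i, 0 ≤ T A t x i)) ∧
    (∀ σ θ, 0 < θ → θ < σ → σ < π → ¬ ∃ C, ∀ f M, H0 σ f → (∀ z ∈ Sec σ, ‖f z‖ ≤ M) →
      ‖fc θ f A‖ ≤ C * M) ∧
    ∃ s : ℝ, ∀ θ, 0 < θ → θ < π → ¬ ∃ B, fc θ (fun z => z / (1 + z) ^ 2) A * B =
      fc θ (fun z => z / (1 + z) ^ 2 * z ^ (s * I)) A := by
  have c1 : ∀ i, c i ≤ 1 := fun i => Real.exp_le_one_iff.2 (by simp)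
  obtain ⟨A, hA, -⟩ := Tri.ex (fun i => 1 - c i) (fun i j h => by linarith [ca h])
    (fun i => by linarith [c1 i]) (fun i => by linarith [c0 i]) (fun i => c i) 1
    (fun i => by simpa [abs_of_pos (c0 i)] using c1 i) fun i j h => by
      rw [← ofReal_sub, norm_real, Real.norm_of_nonpos (sub_nonpos.2 (ca h.le))]; linarith
  have mo : ∀ t ≥ 0, Monotone fun i => Real.exp (-t * c i) := fun t ht i j h =>
    Real.exp_le_exp.2 (by nlinarith [ca h])
  have nT : ∀ t ≥ 0, ‖T A t‖ ≤ 5 * 1 := fun t ht => by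
    have e : ∀ i, Real.exp (-t * c i) ≤ 1 := fun i => Real.exp_le_one_iff.2 (by nlinarith [c0 i])
    obtain ⟨S, h, n⟩ := Tri.ex _ (mo t ht) (fun i => (Real.exp_pos _).le) e
      (fun i => (Real.exp (-t * c i) : ℝ)) 1
      (fun i => by rw [norm_real, Real.norm_of_nonneg (Real.exp_pos _).le]; exact e i)
      fun i j h => by
        rw [← ofReal_sub, norm_real, Real.norm_of_nonneg (sub_nonneg.2 (mo t ht h.le)), one_mul]
    rwa [(rT hA t).ext h]
  have d := fun t ht => Tri.dom (rT hA t) (fun i => (Real.exp_pos _).le) (mo t ht)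
  have d' : ∀ (t : ℝ≥0) (x y : H), (∀ i, (‖x i‖ : ℂ) ≤ y i) → ‖T A t x‖ ≤ ‖T A t y‖ :=
    fun t x y h => lp.norm_mono two_ne_zero fun i =>
      (le_def.1 (d t t.2 x y h i)).1.trans (re_le_norm _)
  have na : ∀ x, ‖ab x‖ = ‖x‖ := fun x => le_antisymm (lp.norm_mono two_ne_zero fun i => by
    simp [ab]) (lp.norm_mono two_ne_zero fun i => by simp [ab])
  have b5 : ∀ x (t : ℝ≥0), ‖T A t (ab x)‖ ≤ 5 * 1 * ‖x‖ := fun x t =>
    na x ▸ (T A t).le_of_opNorm_le (nT t t.2) _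
  have l : ∀ x (t : ℝ≥0), ‖T A t (ab x)‖ ≤ ⨆ t : ℝ≥0, ‖T A t (ab x)‖ := fun x t =>
    le_ciSup (f := fun t : ℝ≥0 => ‖T A t (ab x)‖) ⟨_, forall_mem_range.2 (b5 x)⟩ t
  have T0 : T A (0 : ℝ≥0) = 1 := by simp [T]
  refine ⟨A, .ofSMulLE (fun x => ⨆ t : ℝ≥0, ‖T A t (ab x)‖) ?_ (fun x y => ciSup_le fun t => ?_)
    (fun a x => ciSup_le fun t => ?_), 5 * 1, fun x => ⟨?_, ciSup_le (b5 x)⟩,
    fun x y h => ciSup_le fun t => (d' t _ _ fun i => ?_).trans (l y t),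
    Tri.dense hA fun i => ofReal_ne_zero.2 (c0 i).ne',
    fun ε hε => ⟨_, fun z z0 hz => ⟨(res hA ε hε z z0 hz).1, (res hA ε hε z z0 hz).2.2⟩⟩,
    fun t ht x => ⟨ciSup_le fun s => ?_, fun h i => by simpa using d t ht 0 x (by simpa) i⟩,
    fun σ θ h0 h1 h2 ⟨C, hC⟩ => ?_, π, fun θ h0 h1 ⟨B, hB⟩ => ?_⟩
  · have : ab 0 = 0 := norm_eq_zero.1 (by rw [na, norm_zero])
    simp [this]
  · refine (d' t _ (ab x + ab y) fun i => ?_).trans ?_
    · simpa [ab, ← ofReal_add] using norm_add_le (x i) (y i)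
    · rw [map_add]; exact (norm_add_le _ _).trans (add_le_add (l x t) (l y t))
  · refine (d' t _ ((‖a‖ : ℂ) • ab x) fun i => le_of_eq ?_).trans ?_
    · change ((‖((‖a * x i‖ : ℝ) : ℂ)‖ : ℝ) : ℂ) = ‖a‖ * ‖x i‖; simp
    rw [map_smul, norm_smul, norm_real, norm_norm]
    exact mul_le_mul_of_nonneg_left (l x t) (norm_nonneg _)
  · exact le_trans (by rw [T0, ← na]; rfl) (l x 0)
  · simpa [ab] using h i
  · refine (d' s _ (T A t (ab x)) fun i => ?_).trans (le_trans (le_of_eq ?_) (l x (s + ⟨t, ht⟩)))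
    · simpa [ab] using d t ht x (ab x) (fun _ => le_rfl) i
    · change _ = ‖T A (s + t) (ab x)‖
      rw [(rT hA _).ext (f := fun i => (Real.exp (-(s + t) * c i) : ℝ)) (by
        convert! (rT hA s).mul (rT hA t) using 1
        ext i; simp [← Complex.exp_add]; ring_nf)]
      rfl
  · obtain ⟨M, hM⟩ := hq σ π (h0.trans h1) h2
    refine Tri.unb (fun n i => (n + 1 : ℝ) ^ 2 * c i / (((n + 1 : ℝ) + c i) *
      (1 + (n + 1 : ℝ) * c i)) * c i ^ (π * I)) (fun i => ?_) (C * M) fun n =>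
        ⟨_, rfc hA σ θ h0 h1 h2 _ (hM _ (by simp)).1, hC _ _ (hM _ (by simp)).1
          (hM _ (by simp)).2⟩
    have n := ofReal_ne_zero.2 (c0 i).ne'
    have t := tendsto_one_div_add_atTop_nhds_zero_nat (𝕜 := ℂ)
    convert! ((((tendsto_const_nhds (x := (c i : ℂ))).div (((t.mul_const (c i : ℂ)).const_add 1).mul
      (t.add_const (c i : ℂ))) (by simpa using n)).mul_const ((c i : ℂ) ^ (π * I))).congr fun n => ?_)
      using 2
    · simp [cp, n]
    · have : (n : ℂ) + 1 ≠ 0 := Nat.cast_add_one_ne_zero n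
      push_cast
      rw [Pi.div_apply, ← mul_div_mul_left _ _ (pow_ne_zero 2 this)]
      congr 2; field_simp
  have q : ∀ s : ℝ, Tri.Rep (fc θ (fun z => z / (1 + z) ^ 2 * z ^ (s * I)) A)
      fun i => c i / (1 + c i) ^ 2 * c i ^ (s * I) := fun s => by
    obtain ⟨M, hM⟩ := hq ((θ + π) / 2) s (by linarith) (by linarith)
    exact rfc hA ((θ + π) / 2) θ h0 (by linarith) (by linarith) _
      (by simpa [sq] using (hM 1 le_rfl).1)
  have q0 := q 0
  simp only [ofReal_zero, zero_mul, cpow_zero, mul_one] at q0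
  refine Tri.unb (fun _ i => (-1) ^ i) (fun _ => tendsto_const_nhds) _ fun _ =>
    ⟨B, fun x i => ?_, le_rfl⟩
  have n : ∀ i, (c i / (1 + c i) ^ 2 : ℂ) ≠ 0 := fun i => by
    exact_mod_cast (div_pos (c0 i) (pow_pos (by linarith [c0 i]) 2)).ne'
  have := congrArg (Tri.act fun i => (c i / (1 + c i) ^ 2 : ℂ)⁻¹)
    ((funext (q0 (B x))).symm.trans ((congrArg (fun S : H →L[ℂ] H => ⇑(S x)) hB).trans
      (funext (q π x))))
  rw [Tri.act_mul, Tri.act_mul, show (fun i => (c i / (1 + c i) ^ 2 : ℂ)⁻¹) * (fun i =>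
    (c i / (1 + c i) ^ 2 : ℂ)) = 1 from funext fun i => inv_mul_cancel₀ (n i), Tri.act_one] at this
  rw [this]
  congr 1
  exact funext fun i => (inv_mul_cancel_left₀ (n i) _).trans (cp i)

theorem result : ∃ (X : Type) (_ : NormedAddCommGroup X) (_ : InnerProductSpace ℂ X)
    (_ : CompleteSpace X) (e : HilbertBasis ℕ ℂ X) (A : X →L[ℂ] X) (N : Seminorm ℂ X),
    LatNorm e N ∧ Sectorial0 A ∧ PosContr e N A ∧
    (∀ σ θ, 0 < θ → θ < σ → σ < π → ¬ BddCalc σ θ A) ∧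
    ∃ s : ℝ, ∀ θ, 0 < θ → θ < π → ¬ BddPow s θ A := by
  refine ⟨H, inferInstance, inferInstance, inferInstance, .ofRepr (.refl ℂ H), ?_⟩
  simp only [LatNorm, PosContr, ← HilbertBasis.repr_apply_apply]
  obtain ⟨A, N, K, h1, h2, h3, h4, h5, h6, h7⟩ := main
  exact ⟨A, N, ⟨⟨K, h1⟩, h2⟩, ⟨h3, h4⟩, h5, h6, h7⟩

end Pool.Agent.Results.MP_04e97d_an.NoCalculus
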